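import Mathlib

namespace Pool.Agent.H280Z.Specht

universe u

/-- A (not necessarily associative, not necessarily unital) algebra over the field `F`. -/
structure Alg (F : Type u) [Field F] : Type (u + 1) where
  carrier : Type u
  [ring : NonUnitalNonAssocRing carrier]
  [module : Module F carrier]
  [tower : IsScalarTower F carrier carrier]
  [comm : SMulCommClass F carrier carrier]

attribute [instance] Alg.ring Alg.module Alg.tower Alg.comm

variable {F : Type u} [Field F]

/-- Nonassociative polynomials without constant term in the variables `x₀, x₁, …`. -/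
abbrev NAPoly (F : Type u) [Field F] : Type u := FreeNonUnitalNonAssocAlgebra F ℕ

/-- `A` satisfies the polynomial identity `f = 0`. -/
def Alg.Satisfies (A : Alg F) (f : NAPoly F) : Prop :=
  ∀ φ : ℕ → A.carrier, FreeNonUnitalNonAssocAlgebra.lift F φ f = 0

/-- `A` lies in the variety defined by the set of identities `Γ`. -/
def Alg.InVar (A : Alg F) (Γ : Set (NAPoly F)) : Prop :=
  ∀ f ∈ Γ, A.Satisfies f

/-- Noncommutative Jordan algebra: `(x,y,x) = 0` and `(x²,y,x) = 0`. -/
def Alg.IsNCJordan (A : Alg F) : Prop :=
  (∀ x y : A.carrier, (x * y) * x - x * (y * x) = 0) ∧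
    ∀ x y : A.carrier, ((x * x) * y) * x - (x * x) * (y * x) = 0

/-- Anticommutative algebra. -/
def Alg.IsAnticomm (A : Alg F) : Prop :=
  ∀ x y : A.carrier, x * y = -(y * x)

/-- The subalgebra generated by a set, as a set. -/
def Alg.gen (A : Alg F) (s : Set A.carrier) : Set A.carrier :=
  NonUnitalAlgebra.adjoin F s

/-- The value in `A` of a bracketed word in elements of the subset `B`. -/
def Alg.word (A : Alg F) (B : Set A.carrier) (w : FreeMagma B) : A.carrier :=
  FreeMagma.lift (fun b : B => (b : A.carrier)) w

/-- Every finitely generated subalgebra is nilpotent: for some `n`, every product (in any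
bracketing) of at least `n` elements of the subalgebra is zero. -/
def Alg.IsLocallyNilpotent (A : Alg F) : Prop :=
  ∀ s : Finset A.carrier, ∃ n : ℕ,
    ∀ w : FreeMagma (A.gen s), n ≤ w.length → A.word (A.gen s) w = 0

/-- Two-sided ideal of the algebra. -/
def Alg.IsIdeal (A : Alg F) (I : Submodule F A.carrier) : Prop :=
  ∀ a : A.carrier, ∀ x ∈ I, a * x ∈ I ∧ x * a ∈ I

/-- Simple algebra: nonzero multiplication and no ideals but `0` and `A`. -/
def Alg.IsSimple (A : Alg F) : Prop :=
  (∃ a b : A.carrier, a * b ≠ 0) ∧ ∀ I : Submodule F A.carrier, A.IsIdeal I → I = ⊥ ∨ I = ⊤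

/-- The algebra is a field. -/
def Alg.IsFieldAlg (A : Alg F) : Prop :=
  (∀ a b c : A.carrier, (a * b) * c = a * (b * c)) ∧ (∀ a b : A.carrier, a * b = b * a) ∧
    ∃ e : A.carrier, e ≠ 0 ∧ (∀ a, e * a = a) ∧ ∀ a : A.carrier, a ≠ 0 → ∃ b, a * b = e

theorem unit_tower (A : Alg F) :
    IsScalarTower F (Unitization F A.carrier) (Unitization F A.carrier) :=
  ⟨fun c x y => by
    show (c • x) * y = c • (x * y)
    ext
    · simp [mul_assoc]
    · simp [smul_add, smul_smul, smul_mul_assoc, mul_comm]⟩

theorem unit_comm (A : Alg F) :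
    SMulCommClass F (Unitization F A.carrier) (Unitization F A.carrier) :=
  ⟨fun c x y => by
    show c • (x * y) = x * (c • y)
    ext
    · simp [mul_left_comm]
    · simp [smul_add, smul_smul, mul_smul_comm, mul_comm]⟩

/-- The algebra `F·1 ⊕ A` obtained by adjoining an external identity element. -/
def Alg.adjoinOne (A : Alg F) : Alg F where
  carrier := Unitization F A.carrier
  tower := unit_tower A
  comm := unit_comm A

/-- The variety defined by `Γ` consists of noncommutative Jordan algebras. -/
def IsNCJordanVariety (Γ : Set (NAPoly F)) : Prop :=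
  ∀ A : Alg F, A.InVar Γ → A.IsNCJordan

/-- Every anticommutative algebra of the variety is locally nilpotent. -/
def LocallyAdmissible (Γ : Set (NAPoly F)) : Prop :=
  ∀ A : Alg F, A.InVar Γ → A.IsAnticomm → A.IsLocallyNilpotent

/-- Every simple algebra of the variety is a field. -/
def Nonmatrix (Γ : Set (NAPoly F)) : Prop :=
  ∀ A : Alg F, A.InVar Γ → A.IsSimple → A.IsFieldAlg

/-- The variety is closed under adjoining an external identity element. -/
def UnitClosed (Γ : Set (NAPoly F)) : Prop :=
  ∀ A : Alg F, A.InVar Γ → A.adjoinOne.InVar Γ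

/-- The variety defined by `Γ` can be defined by finitely many identities. -/
def FinitelyBased (Γ : Set (NAPoly F)) : Prop :=
  ∃ Θ : Set (NAPoly F), Θ.Finite ∧ ∀ A : Alg F, A.InVar Γ ↔ A.InVar Θ

/-- Every subvariety of the variety defined by `Γ` is finitely based. -/
def Spechtian (Γ : Set (NAPoly F)) : Prop :=
  ∀ Δ : Set (NAPoly F), (∀ A : Alg F, A.InVar Δ → A.InVar Γ) → FinitelyBased Δ

end Pool.Agent.H280Z.Specht
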