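import Pool.Agent.H280Z.Specht.Props

namespace Pool.Agent.H280Z.Specht

universe u

open ExteriorAlgebra

variable {F : Type u} [Field F] {m : ℕ}

abbrev EE (F : Type u) (m : ℕ) : Type u := Fin m → F
abbrev WW (F : Type u) [Field F] (m : ℕ) : Type u := ExteriorAlgebra F (EE F m)

noncomputable def fam (F : Type u) [Field F] (m : ℕ) : ∀ i, EE F m [⋀^Fin i]→ₗ[F] F :=
  Pi.single (M := fun i => EE F m [⋀^Fin i]→ₗ[F] F) m (Pi.basisFun F (Fin m)).det

/-- the top degree coefficient -/
noncomputable def lam : WW F m →ₗ[F] F := liftAlternating (fam F m)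

noncomputable def act (η : EE F m) (ω : WW F m) : WW F m := ω * ι F η + lam ω • ι F η

theorem act_add (η : EE F m) (a b : WW F m) : act η (a + b) = act η a + act η b := by
  simp only [act, add_mul, map_add, add_smul]; abel

theorem act_smul (η : EE F m) (c : F) (a : WW F m) : act η (c • a) = c • act η a := by
  simp only [act, smul_mul_assoc, map_smul, smul_add, smul_smul, smul_eq_mul]

theorem add_act (η θ : EE F m) (a : WW F m) : act (η + θ) a = act η a + act θ a := by
  simp only [act, mul_add, map_add, smul_add]; abel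

theorem smul_act (c : F) (η : EE F m) (a : WW F m) : act (c • η) a = c • act η a := by
  simp only [act, mul_smul_comm, map_smul, smul_add, smul_smul, mul_comm]

theorem act_zero (η : EE F m) : act η (0 : WW F m) = 0 := by simp [act]

theorem zero_act (a : WW F m) : act 0 a = 0 := by simp [act]

theorem act_neg (η : EE F m) (a : WW F m) : act η (-a) = -act η a := by
  rw [← neg_one_smul F a, act_smul, neg_one_smul]

theorem act_sub (η : EE F m) (a b : WW F m) : act η (a - b) = act η a - act η b := by
  rw [sub_eq_add_neg, act_add, act_neg, sub_eq_add_neg]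

noncomputable def actw (ω : WW F m) : List (EE F m) → WW F m
  | [] => ω
  | η :: l => actw (act η ω) l

theorem actw_add (l : List (EE F m)) (a b : WW F m) : actw (a + b) l = actw a l + actw b l := by
  induction l generalizing a b with
  | nil => rfl
  | cons x l ih => simp only [actw, act_add, ih]

theorem actw_smul (l : List (EE F m)) (c : F) (a : WW F m) : actw (c • a) l = c • actw a l := by
  induction l generalizing a with
  | nil => rfl
  | cons x l ih => simp only [actw, act_smul, ih]

theorem actw_zero (l : List (EE F m)) : actw (0 : WW F m) l = 0 := by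
  induction l with
  | nil => rfl
  | cons x l ih => simp only [actw, act_zero, ih]

theorem actw_append (l l' : List (EE F m)) (a : WW F m) : actw a (l ++ l') = actw (actw a l) l' := by
  induction l generalizing a with
  | nil => rfl
  | cons x l ih => simp only [actw, List.cons_append, ih]

noncomputable def P (l : List (EE F m)) : WW F m := (l.map (ι F)).prod

theorem P_eq (l : List (EE F m)) : P l = ιMulti F l.length l.get := by
  rw [ιMulti_apply, P]
  congr 1
  conv_lhs => rw [← List.ofFn_get l]
  rw [List.map_ofFn]; rfl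

theorem P_concat (l : List (EE F m)) (η : EE F m) : P (l ++ [η]) = P l * ι F η := by
  simp [P]

theorem P_single (η : EE F m) : P [η] = ι F η := by simp [P]

theorem P_zero (s : Finset (EE F m)) (l : List (EE F m)) (hl : ∀ x ∈ l, x ∈ s)
    (h : s.card < l.length) : P l = 0 := by
  classical
  rw [P_eq]
  apply ιMulti_eq_zero_of_not_inj
  intro hinj
  have hn : l.Nodup := List.nodup_iff_injective_get.2 hinj
  have h1 := List.toFinset_card_of_nodup hn
  have h2 : l.toFinset ⊆ s := fun x hx => hl x (List.mem_toFinset.1 hx)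
  have := Finset.card_le_card h2
  omega

theorem lam_P (l : List (EE F m)) : lam (P l) = fam F m l.length l.get := by
  rw [P_eq, lam, liftAlternating_apply_ιMulti]

theorem fam_ne {n : ℕ} (h : n ≠ m) : fam F m n = 0 := Pi.single_eq_of_ne h _

theorem lam_P_ne (l : List (EE F m)) (h : l.length ≠ m) : lam (P l) = 0 := by
  rw [lam_P, fam_ne h]; rfl

theorem fam_sub (S : Submodule F (EE F m)) (hS : Module.finrank F S < m) (n : ℕ)
    (v : Fin n → EE F m) (hv : ∀ i, v i ∈ S) : fam F m n v = 0 := by
  by_cases h : n = m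
  · subst h
    apply AlternatingMap.map_linearDependent
    intro hli
    have h1 : LinearIndependent F (fun i => (⟨v i, hv i⟩ : S)) :=
      LinearIndependent.of_comp S.subtype hli
    have := h1.fintype_card_le_finrank
    simp at this
    omega
  · rw [fam_ne h]; rfl

theorem actw_P (l l' : List (EE F m)) (h : ∀ k < l.length, lam (P (l' ++ l.take k)) = 0) :
    actw (P l') l = P (l' ++ l) := by
  induction l generalizing l' with
  | nil => simp [actw]
  | cons η l ih =>
    have h0 := h 0 (by simp)
    simp only [List.take_zero, List.append_nil] at h0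
    rw [actw, act, h0, zero_smul, add_zero, ← P_concat, ih]
    · simp
    · intro k hk
      have := h (k + 1) (by simp; omega)
      simpa using this

theorem actw_nil (S : Submodule F (EE F m)) (hS : Module.finrank F S < m) (s : Finset (EE F m))
    (hs : ∀ x ∈ s, x ∈ S) (ω : WW F m) (l l' : List (EE F m)) (hl : ∀ x ∈ l, x ∈ s)
    (hl' : ∀ x ∈ l', x ∈ s) (h : 2 * s.card + 1 ≤ l'.length + l.length) :
    actw (ω * P l') l = 0 := by
  induction l generalizing l' with
  | nil =>
    rw [P_zero s l' hl' (by simp at h; omega), mul_zero]; rfl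
  | cons η l ih =>
    by_cases hc : s.card < l'.length
    · rw [P_zero s l' hl' hc, mul_zero, actw_zero]
    have hη : η ∈ s := hl η (by simp)
    have hl2 : ∀ x ∈ l, x ∈ s := fun x hx => hl x (by simp [hx])
    simp only [List.length_cons] at h
    rw [actw, act, actw_add, actw_smul, mul_assoc, ← P_concat, ih _ hl2, ← P_single, actw_P,
      P_zero s ([η] ++ l), smul_zero, add_zero]
    · intro x hx
      simp only [List.cons_append, List.nil_append, List.mem_cons] at hx
      rcases hx with rfl | hx
      · exact hη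
      · exact hl2 x hx
    · simp; omega
    · intro k _
      rw [lam_P]
      apply fam_sub S hS
      intro i
      apply hs
      have hx := List.get_mem ([η] ++ List.take k l) i
      generalize ([η] ++ List.take k l).get i = z at hx
      simp only [List.cons_append, List.nil_append, List.mem_cons] at hx
      rcases hx with hx | hx
      · exact hx ▸ hη
      · exact hl2 _ (List.mem_of_mem_take hx)
    · intro x hx
      rcases List.mem_append.1 hx with hx | hx
      · exact hl' x hx
      · rw [List.mem_singleton.1 hx]; exact hη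
    · simp; omega

noncomputable def bas (F : Type u) [Field F] (m : ℕ) : List (EE F m) := List.ofFn (Pi.basisFun F (Fin m))

theorem lam_top : lam (P (bas F m)) = 1 := by
  have : P (bas F m) = ιMulti F m (Pi.basisFun F (Fin m)) := by
    rw [ιMulti_apply, P, bas, List.map_ofFn]; rfl
  rw [this, lam, liftAlternating_apply_ιMulti, fam, Pi.single_eq_same, Module.Basis.det_self]

theorem actw_top (hm : 0 < m) : actw (P (bas F m)) (bas F m) = P (bas F m) := by
  classical
  have hlen : (bas F m).length = m := by simp [bas]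
  obtain ⟨η, l, hb⟩ : ∃ η l, bas F m = η :: l := by
    rcases h : bas F m with _ | ⟨η, l⟩
    · rw [h] at hlen; simp at hlen; omega
    · exact ⟨η, l, rfl⟩
  have h1 : act η (P (bas F m)) = P [η] := by
    rw [act, lam_top, one_smul, ← P_concat, P_zero (bas F m).toFinset, zero_add, P_single]
    · intro x hx
      rcases List.mem_append.1 hx with hx | hx
      · exact List.mem_toFinset.2 hx
      · rw [List.mem_singleton.1 hx, hb]; simp
    · have := List.toFinset_card_le (bas F m)
      simp only [List.length_append, List.length_singleton]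
      omega
  conv_lhs => rw [hb]
  rw [actw, ← hb, h1, actw_P, hb]
  · rfl
  · intro k hk
    apply lam_P_ne
    rw [hb] at hlen
    simp only [List.length_cons, List.length_append, List.length_take, List.length_nil] at hlen ⊢
    omega

/-- the example algebra -/
def Ex {U : Type u} [AddCommGroup U] [Module F U] (_j : U →ₗ[F] EE F m) : Type u := WW F m × U

section
variable {U : Type u} [AddCommGroup U] [Module F U] (j : U →ₗ[F] EE F m)

noncomputable instance : AddCommGroup (Ex j) := inferInstanceAs (AddCommGroup (WW F m × U))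
noncomputable instance : Module F (Ex j) := inferInstanceAs (Module F (WW F m × U))
noncomputable instance : Mul (Ex j) :=
  ⟨fun x y => ((act (j y.2) x.1 - act (j x.2) y.1, 0) : WW F m × U)⟩

variable {j}
theorem Ex.ext {x y : Ex j} (h1 : x.1 = y.1) (h2 : x.2 = y.2) : x = y := Prod.ext h1 h2
theorem Ex.mul1 (x y : Ex j) : (x * y).1 = act (j y.2) x.1 - act (j x.2) y.1 := rfl
theorem Ex.mul2 (x y : Ex j) : (x * y).2 = 0 := rfl
theorem Ex.add1 (x y : Ex j) : (x + y).1 = x.1 + y.1 := rfl
theorem Ex.add2 (x y : Ex j) : (x + y).2 = x.2 + y.2 := rfl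
theorem Ex.sub1 (x y : Ex j) : (x - y).1 = x.1 - y.1 := rfl
theorem Ex.sub2 (x y : Ex j) : (x - y).2 = x.2 - y.2 := rfl
theorem Ex.smul1 (c : F) (x : Ex j) : (c • x).1 = c • x.1 := rfl
theorem Ex.smul2 (c : F) (x : Ex j) : (c • x).2 = c • x.2 := rfl
theorem Ex.zero1 : (0 : Ex j).1 = 0 := rfl
theorem Ex.zero2 : (0 : Ex j).2 = 0 := rfl
variable (j)

noncomputable instance : NonUnitalNonAssocRing (Ex j) where
  left_distrib x y z := Ex.ext
    (by simp only [Ex.mul1, Ex.add1, Ex.add2, map_add, add_act, act_add]; abel)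
    (by simp only [Ex.mul2, Ex.add2, add_zero])
  right_distrib x y z := Ex.ext
    (by simp only [Ex.mul1, Ex.add1, Ex.add2, map_add, add_act, act_add]; abel)
    (by simp only [Ex.mul2, Ex.add2, add_zero])
  zero_mul x := Ex.ext
    (by simp only [Ex.mul1, Ex.zero1, Ex.zero2, map_zero, act_zero, zero_act, sub_zero]) rfl
  mul_zero x := Ex.ext
    (by simp only [Ex.mul1, Ex.zero1, Ex.zero2, map_zero, act_zero, zero_act, sub_zero]) rfl

instance : IsScalarTower F (Ex j) (Ex j) := ⟨fun c x y => by
  show (c • x) * y = c • (x * y)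
  exact Ex.ext
    (by simp only [Ex.mul1, Ex.smul1, Ex.smul2, map_smul, smul_act, act_smul, smul_sub])
    (by simp only [Ex.mul2, Ex.smul2, smul_zero])⟩

instance : SMulCommClass F (Ex j) (Ex j) := ⟨fun c x y => by
  show c • (x * y) = x * (c • y)
  exact Ex.ext
    (by simp only [Ex.mul1, Ex.smul1, Ex.smul2, map_smul, smul_act, act_smul, smul_sub])
    (by simp only [Ex.mul2, Ex.smul2, smul_zero])⟩

noncomputable def ExAlg : Alg F := ⟨Ex j⟩

theorem Ex.J2 {a : Ex j} (ha : J F a) : a.2 = 0 := by
  induction ha with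
  | comm x y => rw [Ex.sub2, Ex.mul2, Ex.mul2, sub_zero]
  | assoc x y z => rw [Ex.sub2, Ex.mul2, Ex.mul2, sub_zero]
  | zero => rfl
  | add _ _ h1 h2 => rw [Ex.add2, h1, h2, add_zero]
  | smul c _ h1 => rw [Ex.smul2, h1, smul_zero]
  | mulL x _ _ => rfl
  | mulR x _ _ => rfl

theorem Ex.cw_eq (l : List (Ex j)) (t : Ex j) (ht : t.2 = 0) :
    (cw t l).1 = (2 : F) ^ l.length • actw t.1 (l.map fun x => j x.2) ∧ (cw t l).2 = 0 := by
  induction l generalizing t with
  | nil => exact ⟨by simp [cw, actw], ht⟩
  | cons x l ih =>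
    have h2 : (t * x - x * t).2 = 0 := by rw [Ex.sub2, Ex.mul2, Ex.mul2, sub_zero]
    have h1 : (t * x - x * t).1 = (2 : F) • act (j x.2) t.1 := by
      rw [Ex.sub1, Ex.mul1, Ex.mul1, ht, map_zero, zero_act, two_smul]; abel
    refine ⟨?_, (ih _ h2).2⟩
    rw [cw, (ih _ h2).1, h1, actw_smul, smul_smul, List.map_cons, actw, List.length_cons, pow_succ]

theorem Ex.good (hj : Module.finrank F (LinearMap.range j) < m) : Good (ExAlg j) := by
  classical
  refine ⟨?_, ?_, ?_, ?_⟩
  · intro (x : Ex j) (y : Ex j)
    show (x * y) * x - x * (y * x) = 0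
    refine Ex.ext ?_ (by rw [Ex.sub2, Ex.mul2, Ex.mul2, sub_zero]; rfl)
    simp only [Ex.sub1, Ex.mul1, Ex.mul2, map_zero, zero_act, act_sub, Ex.zero1]
    abel
  · intro (x : Ex j) (y : Ex j)
    show ((x * x) * y) * x - (x * x) * (y * x) = 0
    have : x * x = 0 := Ex.ext (by rw [Ex.mul1, sub_self]; rfl) rfl
    rw [this]; simp
  · intro (a : Ex j) (b : Ex j) ha hb
    show a * b = 0
    refine Ex.ext ?_ rfl
    rw [Ex.mul1, Ex.J2 j ha, Ex.J2 j hb, map_zero, zero_act, zero_act, sub_zero]; rfl
  · intro (s : Finset (Ex j)) (l : List (Ex j)) hl (hlen : 2 * s.card + 3 ≤ l.length) (t : Ex j)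
    show cw t l = (0 : Ex j)
    rcases l with _ | ⟨x, l⟩
    · simp at hlen
    have h2 : (t * x - x * t).2 = 0 := by rw [Ex.sub2, Ex.mul2, Ex.mul2, sub_zero]
    have h := Ex.cw_eq j l _ h2
    rw [cw]
    refine Ex.ext ?_ h.2
    have hc := Finset.card_image_le (s := s) (f := fun x => j x.2)
    have := actw_nil (LinearMap.range j) hj (s.image fun x => j x.2)
      (fun y hy => by
        obtain ⟨z, _, rfl⟩ := Finset.mem_image.1 hy
        exact LinearMap.mem_range_self j _) (t * x - x * t).1 (l.map fun x => j x.2) []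
      (fun y hy => by
        obtain ⟨z, hz, rfl⟩ := List.mem_map.1 hy
        exact Finset.mem_image_of_mem _ (hl z (List.mem_cons_of_mem _ hz))) (by simp)
      (by simp only [List.length_cons, List.length_map, List.length_nil] at hlen ⊢; omega)
    simp only [P, List.map_nil, List.prod_nil, mul_one] at this
    rw [h.1, this, smul_zero]; rfl

/-- the comparison map -/
noncomputable def Ex.hom : Ex j →ₙₐ[F] Ex (LinearMap.id : EE F m →ₗ[F] EE F m) where
  toFun x := ((x.1, j x.2) : WW F m × EE F m)
  map_smul' c x := Ex.ext rfl (map_smul j c x.2)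
  map_zero' := Ex.ext rfl (map_zero j)
  map_add' x y := Ex.ext rfl (map_add j x.2 y.2)
  map_mul' _ _ := Ex.ext rfl (map_zero j)

end

theorem Ex.not_good [CharZero F] (hm : 0 < m) :
    ¬ Good (ExAlg (LinearMap.id : EE F m →ₗ[F] EE F m)) := by
  classical
  intro hG
  let b : List (Ex (LinearMap.id : EE F m →ₗ[F] EE F m)) :=
    (bas F m).map fun η => ((0, η) : WW F m × EE F m)
  have hb : b.length = m := by simp [b, bas]
  have hc := List.toFinset_card_le b
  let t : Ex (LinearMap.id : EE F m →ₗ[F] EE F m) := ((P (bas F m), 0) : WW F m × EE F m)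
  have h := hG.word b.toFinset (b ++ b ++ b ++ b ++ b) (by
    intro (x : Ex (LinearMap.id : EE F m →ₗ[F] EE F m)) (hx : x ∈ b ++ b ++ b ++ b ++ b)
    simp only [List.mem_append, or_self] at hx
    exact List.mem_toFinset.2 hx) (by
    show 2 * b.toFinset.card + 3 ≤ (b ++ b ++ b ++ b ++ b).length
    simp only [List.length_append]; omega) t
  have h1 := (Ex.cw_eq _ (b ++ b ++ b ++ b ++ b) t rfl).1
  have h2 : (b.map fun x => (LinearMap.id : EE F m →ₗ[F] EE F m) x.2) = bas F m := by
    simp only [b, List.map_map]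
    exact List.map_id _
  have h3 : cw t (b ++ b ++ b ++ b ++ b) = 0 := h
  simp only [List.map_append, h2, actw_append] at h1
  have h4 : t.1 = P (bas F m) := rfl
  rw [h4, actw_top hm, actw_top hm, actw_top hm, actw_top hm, actw_top hm, h3, Ex.zero1] at h1
  have h5 := congrArg lam h1
  rw [map_zero, map_smul, lam_top, smul_eq_mul, mul_one] at h5
  exact pow_ne_zero _ two_ne_zero h5.symm

theorem not_finitelyBased [CharZero F] : ¬ FinitelyBased (Gam F) := by
  classical
  rintro ⟨Θ, hfin, hΘ⟩
  choose v hv using fun f : NAPoly F => exists_vars f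
  obtain ⟨r, hr⟩ : ∃ r : ℕ, ∀ f ∈ Θ, ∀ x ∈ v f, x < r := by
    obtain ⟨r, hr⟩ := (hfin.toFinset.biUnion v).bddAbove
    refine ⟨r + 1, fun f hf x hx => Nat.lt_succ_of_le (hr ?_)⟩
    simp only [Finset.coe_biUnion, Set.mem_iUnion]
    exact ⟨f, by simpa using hf, hx⟩
  apply Ex.not_good (F := F) (m := r + 1) (by omega)
  rw [← good_iff, hΘ]
  intro f hf (φ : ℕ → Ex (LinearMap.id : EE F (r + 1) →ₗ[F] EE F (r + 1)))
  let j : (Fin r → F) →ₗ[F] EE F (r + 1) := (Pi.basisFun F (Fin r)).constr F fun i => (φ i).2
  have hj : Module.finrank F (LinearMap.range j) < r + 1 := by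
    have := LinearMap.finrank_range_le j
    simp at this
    omega
  have hB : (ExAlg j).InVar Θ := (hΘ _).1 ((good_iff _).2 (Ex.good j hj))
  let ψ : ℕ → Ex j := fun i =>
    (((φ i).1, if h : i < r then Pi.basisFun F (Fin r) ⟨i, h⟩ else 0) : WW F (r + 1) × (Fin r → F))
  have h1 : FreeNonUnitalNonAssocAlgebra.lift F ψ f = 0 := hB f hf ψ
  have h2 := hv f (ExAlg (LinearMap.id : EE F (r + 1) →ₗ[F] EE F (r + 1))) φ (Ex.hom j ∘ ψ)
    (fun x hx => by
      have hx' := hr f hf x hx
      refine Ex.ext rfl ?_
      show (φ x).2 = j (if h : x < r then Pi.basisFun F (Fin r) ⟨x, h⟩ else 0)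
      rw [dif_pos hx', Module.Basis.constr_basis])
  have h3 := lift_comp (Ex.hom j) ψ f
  rw [h1, map_zero] at h3
  exact h2.trans h3

end Pool.Agent.H280Z.Specht
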