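import Pool.Agent.H280Z.Specht.Defs

namespace Pool.Agent.H280Z.Specht

universe u

open FreeNonUnitalNonAssocAlgebra

variable {F : Type u} [Field F]

section J
variable (F)
variable {A : Type u} [NonUnitalNonAssocRing A] [Module F A]

/-- the ideal generated by commutators and associators -/
inductive J : A → Prop
  | comm (x y : A) : J (x * y - y * x)
  | assoc (x y z : A) : J ((x * y) * z - x * (y * z))
  | zero : J 0
  | add {a b : A} : J a → J b → J (a + b)
  | smul (c : F) {a : A} : J a → J (c • a)
  | mulL (x : A) {a : A} : J a → J (x * a)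
  | mulR (x : A) {a : A} : J a → J (a * x)

variable {F}
variable {B : Type u} [NonUnitalNonAssocRing B] [Module F B]

theorem J.map (h : A →ₙₐ[F] B) {a : A} (ha : J F a) : J F (h a) := by
  induction ha with
  | comm x y => rw [map_sub, map_mul, map_mul]; exact J.comm _ _
  | assoc x y z => rw [map_sub, map_mul, map_mul, map_mul, map_mul]; exact J.assoc _ _ _
  | zero => rw [map_zero]; exact J.zero
  | add _ _ h1 h2 => rw [map_add]; exact h1.add h2
  | smul c _ h1 => rw [map_smul]; exact h1.smul c
  | mulL x _ h1 => rw [map_mul]; exact h1.mulL _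
  | mulR x _ h1 => rw [map_mul]; exact h1.mulR _

theorem J.lift (h : A →ₙₐ[F] B) (hs : Function.Surjective h) {b : B} (hb : J F b) :
    ∃ a, J F a ∧ h a = b := by
  induction hb with
  | comm x y =>
    obtain ⟨x, rfl⟩ := hs x
    obtain ⟨y, rfl⟩ := hs y
    exact ⟨_, J.comm x y, by rw [map_sub, map_mul, map_mul]⟩
  | assoc x y z =>
    obtain ⟨x, rfl⟩ := hs x
    obtain ⟨y, rfl⟩ := hs y
    obtain ⟨z, rfl⟩ := hs z
    exact ⟨_, J.assoc x y z, by rw [map_sub, map_mul, map_mul, map_mul, map_mul]⟩
  | zero => exact ⟨0, J.zero, map_zero h⟩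
  | add _ _ h1 h2 =>
    obtain ⟨a, ha, rfl⟩ := h1
    obtain ⟨b, hb, rfl⟩ := h2
    exact ⟨a + b, ha.add hb, map_add h _ _⟩
  | smul c _ h1 =>
    obtain ⟨a, ha, rfl⟩ := h1
    exact ⟨c • a, ha.smul c, map_smul h _ _⟩
  | mulL x _ h1 =>
    obtain ⟨a, ha, rfl⟩ := h1
    obtain ⟨x, rfl⟩ := hs x
    exact ⟨x * a, ha.mulL x, map_mul h _ _⟩
  | mulR x _ h1 =>
    obtain ⟨a, ha, rfl⟩ := h1
    obtain ⟨x, rfl⟩ := hs x
    exact ⟨a * x, ha.mulR x, map_mul h _ _⟩

/-- left normed commutator word -/
def cw (t : A) : List A → A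
  | [] => t
  | x :: l => cw (t * x - x * t) l

theorem cw_map (h : A →ₙₐ[F] B) (l : List A) (t : A) : h (cw t l) = cw (h t) (l.map h) := by
  induction l generalizing t with
  | nil => rfl
  | cons x l ih => simp only [cw, List.map_cons, ih, map_sub, map_mul]

end J

/-- the semantic description of our variety -/
structure Good (A : Alg F) : Prop where
  flex : ∀ x y : A.carrier, (x * y) * x - x * (y * x) = 0
  jordan : ∀ x y : A.carrier, ((x * x) * y) * x - (x * x) * (y * x) = 0
  jj : ∀ a b : A.carrier, J F a → J F b → a * b = 0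
  word : ∀ (s : Finset A.carrier) (l : List A.carrier), (∀ x ∈ l, x ∈ s) →
    2 * s.card + 3 ≤ l.length → ∀ t, cw t l = 0

/-- the identities of all good algebras -/
def Gam (F : Type u) [Field F] : Set (NAPoly F) := {f | ∀ A : Alg F, Good A → A.Satisfies f}

theorem exists_vars {X : Type*} (f : FreeNonUnitalNonAssocAlgebra F X) :
    ∃ s : Finset X, ∀ (A : Alg F) (φ ψ : X → A.carrier), (∀ x ∈ s, φ x = ψ x) →
      lift F φ f = lift F ψ f := by
  classical
  induction f using MonoidAlgebra.induction_linear with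
  | zero => exact ⟨∅, fun A φ ψ _ => by rw [map_zero, map_zero]⟩
  | add f g hf hg =>
    obtain ⟨s, hs⟩ := hf
    obtain ⟨t, ht⟩ := hg
    refine ⟨s ∪ t, fun A φ ψ h => ?_⟩
    rw [map_add, map_add, hs A φ ψ fun x hx => h x (Finset.mem_union_left _ hx),
      ht A φ ψ fun x hx => h x (Finset.mem_union_right _ hx)]
  | single w c =>
    have key : ∃ s : Finset X, ∀ (A : Alg F) (φ ψ : X → A.carrier), (∀ x ∈ s, φ x = ψ x) →
        lift F φ (MonoidAlgebra.single w (1 : F)) = lift F ψ (MonoidAlgebra.single w (1 : F)) := by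
      induction w with
      | ih1 x =>
        refine ⟨{x}, fun A φ ψ h => ?_⟩
        have h1 := lift_of_apply F φ x
        have h2 := lift_of_apply F ψ x
        exact h1.trans ((h x (Finset.mem_singleton_self x)).trans h2.symm)
      | ih2 x y hx hy =>
        obtain ⟨s, hs⟩ := hx
        obtain ⟨t, ht⟩ := hy
        refine ⟨s ∪ t, fun A φ ψ h => ?_⟩
        have e : (MonoidAlgebra.single (x * y) (1 : F) : FreeNonUnitalNonAssocAlgebra F X) =
            MonoidAlgebra.single x 1 * MonoidAlgebra.single y 1 := by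
          rw [MonoidAlgebra.single_mul_single, mul_one]
        rw [e, map_mul, map_mul, hs A φ ψ fun x hx => h x (Finset.mem_union_left _ hx),
          ht A φ ψ fun x hx => h x (Finset.mem_union_right _ hx)]
    obtain ⟨s, hs⟩ := key
    refine ⟨s, fun A φ ψ h => ?_⟩
    have e : (MonoidAlgebra.single w c : FreeNonUnitalNonAssocAlgebra F X) =
        c • MonoidAlgebra.single w 1 := by
      rw [MonoidAlgebra.smul_single, smul_eq_mul, mul_one]
    rw [e, map_smul, map_smul, hs A φ ψ h]

theorem lift_comp {X : Type*} {A B : Type*} [NonUnitalNonAssocRing A] [Module F A]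
    [IsScalarTower F A A] [SMulCommClass F A A] [NonUnitalNonAssocRing B] [Module F B]
    [IsScalarTower F B B] [SMulCommClass F B B] (h : A →ₙₐ[F] B) (φ : X → A)
    (f : FreeNonUnitalNonAssocAlgebra F X) : lift F (h ∘ φ) f = h (lift F φ f) := by
  have : lift F (h ∘ φ) = h.comp (lift F φ) := by
    apply hom_ext
    intro x
    simp
  rw [this]; rfl

theorem sat_of_all {A : Alg F} (hA : A.InVar (Gam F)) {X : Type*}
    (f : FreeNonUnitalNonAssocAlgebra F X)
    (hf : ∀ B : Alg F, Good B → ∀ φ : X → B.carrier, lift F φ f = 0) (ψ : X → A.carrier) :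
    lift F ψ f = 0 := by
  classical
  obtain ⟨s, hs⟩ := exists_vars f
  obtain ⟨ι, hι⟩ := Set.countable_iff_exists_injOn.mp s.countable_toSet
  let g : ℕ → A.carrier := fun n => if h : ∃ x ∈ s, ι x = n then ψ h.choose else 0
  have hg : ∀ x ∈ s, ψ x = g (ι x) := by
    intro x hx
    have h : ∃ y ∈ s, ι y = ι x := ⟨x, hx, rfl⟩
    simp only [g, dif_pos h]
    congr 1
    exact (hι h.choose_spec.1 hx h.choose_spec.2).symm
  have hmem : lift F (of F ∘ ι) f ∈ Gam F := by
    intro B hB φ
    rw [← lift_comp]
    exact hf B hB _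
  have h1 := hA _ hmem g
  rw [← lift_comp] at h1
  rw [hs A ψ (lift F g ∘ of F ∘ ι) (fun x hx => by simp [hg x hx])]
  exact h1

theorem good_iff (A : Alg F) : A.InVar (Gam F) ↔ Good A := by
  classical
  refine ⟨fun hA => ?_, fun hA f hf => hf A hA⟩
  have hs : Function.Surjective (lift F (id : A.carrier → A.carrier)) :=
    fun a => ⟨of F a, by simp⟩
  refine ⟨fun x y => ?_, fun x y => ?_, fun a b ha hb => ?_, fun s l hl hlen t => ?_⟩
  · have := sat_of_all hA ((of F x * of F y) * of F x - of F x * (of F y * of F x))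
      (fun B hB φ => by simpa using hB.flex (φ x) (φ y)) id
    simpa using this
  · have := sat_of_all hA (((of F x * of F x) * of F y) * of F x -
        (of F x * of F x) * (of F y * of F x))
      (fun B hB φ => by simpa using hB.jordan (φ x) (φ y)) id
    simpa using this
  · obtain ⟨p, hp, rfl⟩ := J.lift _ hs ha
    obtain ⟨q, hq, rfl⟩ := J.lift _ hs hb
    rw [← map_mul]
    exact sat_of_all hA (p * q)
      (fun B hB φ => by rw [map_mul]; exact hB.jj _ _ (hp.map _) (hq.map _)) id
  · have := sat_of_all hA (cw (of F t) (l.map (of F)))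
      (fun B hB φ => by
        rw [cw_map]
        refine hB.word (s.image φ) _ ?_ ?_ _
        · intro x hx
          simp only [List.map_map, List.mem_map, Function.comp] at hx
          obtain ⟨y, hy, rfl⟩ := hx
          rw [lift_of_apply]
          exact Finset.mem_image_of_mem _ (hl y hy)
        · have := Finset.card_image_le (s := s) (f := φ)
          simp only [List.length_map]
          omega) id
    rw [cw_map] at this
    simpa [List.map_map, Function.comp_def] using this

end Pool.Agent.H280Z.Specht
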