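import Pool.Agent.H280Z.Specht.Good

namespace Pool.Agent.H280Z.Specht

universe u

variable {F : Type u} [Field F]

theorem ncJordan : IsNCJordanVariety (Gam F) := fun A hA =>
  ⟨((good_iff A).1 hA).flex, ((good_iff A).1 hA).jordan⟩

/-- the ideal `J` as a submodule -/
def Jsub (A : Alg F) : Submodule F A.carrier where
  carrier := {a | J F a}
  add_mem' := fun ha hb => J.add ha hb
  zero_mem' := J.zero
  smul_mem' := fun c _ ha => J.smul c ha

theorem nonmatrix : Nonmatrix (Gam F) := by
  intro A hA ⟨⟨a₀, b₀, hab⟩, hs⟩
  have hG := (good_iff A).1 hA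
  have hJ : Jsub A = ⊥ := by
    rcases hs (Jsub A) (fun a x hx => ⟨J.mulL a hx, J.mulR a hx⟩) with h | h
    · exact h
    · exfalso
      apply hab
      apply hG.jj
      · show a₀ ∈ Jsub A
        rw [h]; trivial
      · show b₀ ∈ Jsub A
        rw [h]; trivial
  have hz : ∀ a, J F a → a = 0 := fun a ha => by
    have : a ∈ Jsub A := ha
    rw [hJ] at this
    exact this
  have hassoc : ∀ a b c : A.carrier, (a * b) * c = a * (b * c) :=
    fun a b c => sub_eq_zero.1 (hz _ (J.assoc a b c))
  have hcomm : ∀ a b : A.carrier, a * b = b * a :=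
    fun a b => sub_eq_zero.1 (hz _ (J.comm a b))
  -- the annihilator is zero
  have hann : ∀ a : A.carrier, (∀ b, a * b = 0) → a = 0 := by
    let N : Submodule F A.carrier :=
      { carrier := {a | ∀ b, a * b = 0}
        add_mem' := fun {x y} hx hy b => by rw [add_mul, hx b, hy b, add_zero]
        zero_mem' := fun b => zero_mul b
        smul_mem' := fun c x hx b => by rw [smul_mul_assoc, hx b, smul_zero] }
    have hN : A.IsIdeal N := fun a x hx =>
      ⟨fun b => by rw [hcomm a x, hx a, zero_mul], fun b => by rw [hx a, zero_mul]⟩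
    rcases hs N hN with h | h
    · intro a ha
      have : a ∈ N := ha
      rw [h] at this
      exact this
    · exfalso
      have : a₀ ∈ N := by rw [h]; trivial
      exact hab (this b₀)
  have hsurj : ∀ a : A.carrier, a ≠ 0 → ∀ c, ∃ b, a * b = c := by
    intro a ha
    let N : Submodule F A.carrier :=
      { carrier := {c | ∃ b, a * b = c}
        add_mem' := fun {x y} ⟨b, hb⟩ ⟨b', hb'⟩ => ⟨b + b', by rw [mul_add, hb, hb']⟩
        zero_mem' := ⟨0, mul_zero a⟩
        smul_mem' := fun c x ⟨b, hb⟩ => ⟨c • b, by rw [mul_smul_comm, hb]⟩ }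
    have hN : A.IsIdeal N := fun c x ⟨b, hb⟩ =>
      ⟨⟨b * c, by rw [← hassoc, hb, hcomm]⟩, ⟨b * c, by rw [← hassoc, hb]⟩⟩
    rcases hs N hN with h | h
    · exfalso
      apply ha
      apply hann
      intro b
      have : a * b ∈ N := ⟨b, rfl⟩
      rw [h] at this
      exact this
    · intro c
      have : c ∈ N := by rw [h]; trivial
      exact this
  have ha₀ : a₀ ≠ 0 := fun h => hab (by rw [h, zero_mul])
  obtain ⟨e, he⟩ := hsurj a₀ ha₀ a₀
  refine ⟨hassoc, hcomm, e, ?_, ?_, fun a ha => hsurj a ha e⟩
  · intro h
    rw [h, mul_zero] at he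
    exact ha₀ he.symm
  · intro a
    obtain ⟨b, rfl⟩ := hsurj a₀ ha₀ a
    rw [← hassoc, hcomm e a₀, he]

theorem ufst_sub {A : Type u} [NonUnitalNonAssocRing A] (x y : Unitization F A) :
    (x - y).fst = x.fst - y.fst := by
  rw [sub_eq_add_neg, sub_eq_add_neg, Unitization.fst_add, Unitization.fst_neg]

theorem usnd_sub {A : Type u} [NonUnitalNonAssocRing A] (x y : Unitization F A) :
    (x - y).snd = x.snd - y.snd := by
  rw [sub_eq_add_neg, sub_eq_add_neg, Unitization.snd_add, Unitization.snd_neg]

theorem unit_J (A : Alg F) {a : Unitization F A.carrier} (ha : J F (A := A.adjoinOne.carrier) a) :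
    a.fst = 0 ∧ J F a.snd := by
  induction ha with
  | comm x y =>
    revert x y
    intro (x : Unitization F A.carrier) (y : Unitization F A.carrier)
    show (x * y - y * x).fst = 0 ∧ J F (x * y - y * x).snd
    refine ⟨by simp [ufst_sub, mul_comm], ?_⟩
    have : (x * y - y * x).snd = x.snd * y.snd - y.snd * x.snd := by
      simp only [usnd_sub, Unitization.snd_mul]; abel
    rw [this]; exact J.comm _ _
  | assoc x y z =>
    revert x y z
    intro (x : Unitization F A.carrier) (y : Unitization F A.carrier) (z : Unitization F A.carrier)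
    show ((x * y) * z - x * (y * z)).fst = 0 ∧ J F ((x * y) * z - x * (y * z)).snd
    refine ⟨by simp [ufst_sub, mul_assoc], ?_⟩
    have : ((x * y) * z - x * (y * z)).snd = (x.snd * y.snd) * z.snd - x.snd * (y.snd * z.snd) := by
      simp only [usnd_sub, Unitization.snd_mul, Unitization.fst_mul, smul_add, smul_smul,
        add_mul, mul_add, smul_mul_assoc, mul_smul_comm, mul_comm z.fst x.fst, mul_comm z.fst y.fst]
      abel
    rw [this]; exact J.assoc _ _ _
  | zero => exact ⟨rfl, J.zero⟩
  | @add a b _ _ h1 h2 =>
    revert a b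
    intro (a : Unitization F A.carrier) (b : Unitization F A.carrier) _ _ h1 h2
    show (a + b).fst = 0 ∧ J F (a + b).snd
    exact ⟨by simp [h1.1, h2.1], by simpa using h1.2.add h2.2⟩
  | @smul c a _ h1 =>
    revert a
    intro (a : Unitization F A.carrier) _ h1
    show (c • a).fst = 0 ∧ J F (c • a).snd
    exact ⟨by simp [h1.1], by simpa using h1.2.smul c⟩
  | @mulL x a _ h1 =>
    revert x a
    intro (x : Unitization F A.carrier) (a : Unitization F A.carrier) _ h1
    show (x * a).fst = 0 ∧ J F (x * a).snd
    refine ⟨by simp [h1.1], ?_⟩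
    rw [Unitization.snd_mul, h1.1, zero_smul, add_zero]
    exact (h1.2.smul _).add (h1.2.mulL _)
  | @mulR x a _ h1 =>
    revert x a
    intro (x : Unitization F A.carrier) (a : Unitization F A.carrier) _ h1
    show (a * x).fst = 0 ∧ J F (a * x).snd
    refine ⟨by simp [h1.1], ?_⟩
    rw [Unitization.snd_mul, h1.1, zero_smul, zero_add]
    exact (h1.2.smul _).add (h1.2.mulR _)

theorem unit_cw (A : Alg F) (l : List (Unitization F A.carrier)) (t : Unitization F A.carrier) :
    (cw t l).snd = cw t.snd (l.map fun x => x.snd) ∧ (l ≠ [] → (cw t l).fst = 0) := by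
  induction l generalizing t with
  | nil => exact ⟨rfl, fun h => absurd rfl h⟩
  | cons x l ih =>
    have e : (t * x - x * t).snd = t.snd * x.snd - x.snd * t.snd := by
      simp only [usnd_sub, Unitization.snd_mul]; abel
    refine ⟨by rw [cw, (ih _).1, e]; rfl, fun _ => ?_⟩
    rw [cw]
    rcases l with _ | ⟨y, l⟩
    · simp [cw, ufst_sub, mul_comm]
    · exact (ih _).2 (by simp)

theorem unitClosed : UnitClosed (Gam F) := by
  classical
  intro A hA
  have hG := (good_iff A).1 hA
  rw [good_iff]
  refine ⟨?_, ?_, ?_, ?_⟩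
  · intro (x : Unitization F A.carrier) (y : Unitization F A.carrier)
    show (x * y) * x - x * (y * x) = 0
    have h := hG.flex x.snd y.snd
    ext
    · simp [ufst_sub, mul_assoc]
    · rw [Unitization.snd_zero, ← h]
      simp only [usnd_sub, Unitization.snd_mul, Unitization.fst_mul, smul_add, smul_smul,
        add_mul, mul_add, smul_mul_assoc, mul_smul_comm, mul_comm x.fst y.fst]
      abel
  · intro (x : Unitization F A.carrier) (y : Unitization F A.carrier)
    show ((x * x) * y) * x - (x * x) * (y * x) = 0
    have h := hG.flex x.snd y.snd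
    have h' := hG.jordan x.snd y.snd
    ext
    · simp [ufst_sub, mul_assoc]
    · have : (((x * x) * y) * x - (x * x) * (y * x)).snd =
          (((x.snd * x.snd) * y.snd) * x.snd - (x.snd * x.snd) * (y.snd * x.snd)) +
          (2 * x.fst) • ((x.snd * y.snd) * x.snd - x.snd * (y.snd * x.snd)) := by
        simp only [usnd_sub, Unitization.snd_mul, Unitization.fst_mul, smul_add,
          add_mul, mul_add, smul_mul_assoc, mul_smul_comm]
        module
      rw [this, h, h', smul_zero, add_zero, Unitization.snd_zero]
  · intro (a : Unitization F A.carrier) (b : Unitization F A.carrier) ha hb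
    have h1 := unit_J A ha
    have h2 := unit_J A hb
    show a * b = 0
    ext
    · simp [h1.1]
    · simp [h1.1, h2.1, hG.jj _ _ h1.2 h2.2]
  · intro (s : Finset (Unitization F A.carrier)) (l : List (Unitization F A.carrier)) hl
      (hlen : 2 * s.card + 3 ≤ l.length) (t : Unitization F A.carrier)
    have h := unit_cw A l t
    show cw t l = (0 : Unitization F A.carrier)
    ext
    · exact h.2 (by rintro rfl; simp at hlen)
    · rw [h.1, Unitization.snd_zero]
      refine hG.word (s.image fun x => x.snd) _ ?_ ?_ _
      · intro x hx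
        obtain ⟨y, hy, rfl⟩ := List.mem_map.1 hx
        exact Finset.mem_image_of_mem _ (hl y hy)
      · have := Finset.card_image_le (s := s) (f := fun x => x.snd)
        simp only [List.length_map]
        omega

/-- left normed product -/
def rw' {A : Type u} [Mul A] (t : A) : List A → A
  | [] => t
  | x :: l => rw' (t * x) l

section
variable {A : Type u} [NonUnitalNonAssocRing A] [Module F A] [IsScalarTower F A A]

theorem rw'_add (l : List A) (a b : A) : rw' (a + b) l = rw' a l + rw' b l := by
  induction l generalizing a b with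
  | nil => rfl
  | cons x l ih => simp only [rw', add_mul, ih]

theorem rw'_zero (l : List A) : rw' (0 : A) l = 0 := by
  induction l with
  | nil => rfl
  | cons x l ih => simp only [rw', zero_mul, ih]

theorem rw'_smul (l : List A) (c : F) (a : A) : rw' (c • a) l = c • rw' a l := by
  induction l generalizing a with
  | nil => rfl
  | cons x l ih => simp only [rw', smul_mul_assoc, ih]

theorem cw_eq (h : ∀ x y : A, x * y = -(y * x)) (l : List A) (t : A) :
    cw t l = (2 : F) ^ l.length • rw' t l := by
  induction l generalizing t with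
  | nil => simp [cw, rw']
  | cons x l ih =>
    have : t * x - x * t = (2 : F) • (t * x) := by rw [h x t, two_smul]; abel
    rw [cw, ih, this, rw'_smul, smul_smul, rw', List.length_cons, pow_succ]

end

theorem locAdm [CharZero F] : LocallyAdmissible (Gam F) := by
  intro A hA hanti s
  have hG := (good_iff A).1 hA
  have hJ : ∀ a b : A.carrier, J F (a * b) := fun a b => by
    have : a * b = (2 : F)⁻¹ • (a * b - b * a) := by
      rw [hanti b a, sub_neg_eq_add, ← two_smul F, smul_smul, inv_mul_cancel₀ two_ne_zero, one_smul]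
    rw [this]
    exact (J.comm a b).smul _
  set N := 2 * s.card + 3 with hN
  have hw : ∀ l : List A.carrier, (∀ x ∈ l, x ∈ s) → N ≤ l.length → ∀ t, rw' t l = 0 := by
    intro l hl hlen t
    have := hG.word s l hl hlen t
    rw [cw_eq (F := F) hanti] at this
    exact (smul_eq_zero.1 this).resolve_left (pow_ne_zero _ two_ne_zero)
  let K : ℕ → A.carrier → Prop := fun k a =>
    J F a ∧ ∀ l : List A.carrier, (∀ x ∈ l, x ∈ s) → N ≤ k + l.length → rw' a l = 0
  have hK : ∀ b ∈ NonUnitalAlgebra.adjoin F (s : Set A.carrier), ∀ k a, K k a → K (k + 1) (a * b) := by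
    intro b hb k a ha
    refine ⟨hJ _ _, fun l hl hlen => ?_⟩
    induction hb using NonUnitalAlgebra.adjoin_induction with
    | mem x hx =>
      refine ha.2 (x :: l) ?_ (by simp only [List.length_cons]; omega)
      intro y hy
      rcases List.mem_cons.1 hy with rfl | hy
      · exact hx
      · exact hl y hy
    | add x y _ _ h1 h2 => rw [mul_add, rw'_add, h1, h2, add_zero]
    | zero => rw [mul_zero, rw'_zero]
    | mul x y _ _ _ _ => rw [hG.jj _ _ ha.1 (hJ x y), rw'_zero]
    | smul c x _ h1 => rw [mul_smul_comm, rw'_smul, h1, smul_zero]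
  have hneg : ∀ k a, K k a → K k (-a) := by
    intro k a ha
    rw [← neg_one_smul F a]
    exact ⟨ha.1.smul _, fun l hl hlen => by rw [rw'_smul, ha.2 l hl hlen, smul_zero]⟩
  have hmul : ∀ x y : FreeMagma (A.gen s),
      A.word (A.gen s) (x * y) = A.word (A.gen s) x * A.word (A.gen s) y :=
    fun x y => map_mul (FreeMagma.lift (fun b : A.gen s => (b : A.carrier))) x y
  have hmem : ∀ w : FreeMagma (A.gen s),
      A.word (A.gen s) w ∈ NonUnitalAlgebra.adjoin F (s : Set A.carrier) := by
    intro w
    induction w with
    | ih1 x => exact x.2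
    | ih2 x y hx hy => rw [hmul]; exact mul_mem hx hy
  have main : ∀ w : FreeMagma (A.gen s), ∀ k,
      w.length = k + 2 → K k (A.word (A.gen s) w) := by
    intro w
    induction w with
    | ih1 x => intro k hk; simp [FreeMagma.length] at hk
    | ih2 x y hx hy =>
      intro k hk
      have hl : (x * y).length = x.length + y.length := rfl
      have px := x.length_pos
      have py := y.length_pos
      rw [hmul]
      rcases k with _ | k
      · exact ⟨hJ _ _, fun l h1 h2 => hw l h1 (by omega) _⟩
      by_cases h1 : y.length = 1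
      · exact hK _ (hmem _) _ _ (hx k (by omega))
      by_cases h2 : x.length = 1
      · rw [hanti]
        exact hneg _ _ (hK _ (hmem _) _ _ (hy k (by omega)))
      · have e1 := (hx (x.length - 2) (by omega)).1
        have e2 := (hy (y.length - 2) (by omega)).1
        rw [hG.jj _ _ e1 e2]
        exact ⟨J.zero, fun l _ _ => rw'_zero l⟩
  refine ⟨N + 2, fun w hw => ?_⟩
  exact (main w (w.length - 2) (by omega)).2 [] (by simp) (by simp; omega)

end Pool.Agent.H280Z.Specht
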